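import Mathlib
import Pool.Agent.H.MP_2e4b78_lc.B

set_option autoImplicit false

namespace Pool.Agent.Results.MP_2e4b78_lc.Indep

open Cardinal Pool.Agent.H.MP_2e4b78_lc

theorem result :
    (RC → Dia → ∃ J : Set (Set (Ordinal.omega 1 : Ordinal.{0}).ToType), Nrm J ∧ ¬ Rep J) ∧
    ((2 : Cardinal.{0}) ^ ℵ₁ = ℵ_ 2 → NR →
      ∀ J : Set (Set (Ordinal.omega 1 : Ordinal.{0}).ToType), Nrm J → Rep J) :=
  ⟨no, yes⟩

end Pool.Agent.Results.MP_2e4b78_lc.Indep
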